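import Pool.Agent.Run7.h444.WC4
import Pool.Agent.Y429.RG.MINKM
import Pool.Agent.Y506.RG.Fnl
import Pool.Agent.Y506.PV.Fin

/-!
# KLS for bodies given by few convex functions of bounded condition number

Q1, for sets `S` of measure one half, for the laws of all linear images (marginals, in any dimension)
of the uniform measures on the convex bodies

`K = {x ∈ ℝ^m | S_j(x) ≤ e_j for all j < r}` (bounded, with a point where all inequalities are strict),

and on the images of such bodies under affine maps of `ℝ^m` onto `ℝⁿ`, `m ≤ n + p`, where the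
`S_j ≥ 0` are convex functions whose condition number relative to some quadratic form is at most `κ`:
there are linear maps `A_j` on `ℝ^m`, which may have a kernel, such that

`S_j(x) - ‖A_j x‖² / 2` and `κ ‖A_j x‖² / 2 - S_j(x)` are convex

(for `C²` functions: `Q_j ≤ D² S_j(x) ≤ κ Q_j` for all `x`, `Q_j = A_jᵀ A_j`). The constant depends only on
`κ`, `r` and `p`. The quadratic forms `Q_j` are arbitrary; they have different eigenvectors in general,
and there is no common structure (blocks, symmetries, sums) as in the other classes of bodies for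
which the inequality is known. Examples:

* intersections of `r` arbitrary ellipsoids and elliptic cylinders, with arbitrary centres and axes
  (`κ = 1`, theorem `ellipsoids`), their sections by subspaces of any dimension and their projections
  along `p` dimensions;
* intersections of `r` sublevel sets of functions `‖A_j x‖² + φ_j(A_j x)`, `φ_j` convex with Lipschitz
  gradient, in particular of smooth convex bodies with curvatures between two constants
  (times the one of a ball or of an ellipsoid), of any sizes and in any position.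

Method. The Gibbs densities `exp(-V)`, `V = ∑ l_j S_j`, `l_j > 0`, have the condition number `κ`
relative to the form `Q = ∑ l_j Q_j`, which is positive definite because `K` is bounded. So by the
inequality of Brascamp and Lieb `Var v(P x) ≤ E ‖Q^{-1/2} Pᵀ ∇v(P x)‖²`, and by a lower bound for
variances (`(ξ z)² ≤ κ Q(z) Var ξ` for linear functionals `ξ` and all `z`, from the affinity of the
density and its translates) the right hand side is at most `κ s E ‖∇ v(P x)‖²` if the marginals of `P x`
in directions of length one have variances at most `s`: KLS for all linear images, with the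
constant `κ`. The passage from the Gibbs densities to the level sets, with any number of constraints
and any levels, is the theorem of the starting file `GibbsLevelSets` (of `MP_dc1397_gt`), which is
used in its functional form (modules `N483.KM`), and the images and the passage to sets are those of
`ImagesOfSections`.
-/

set_option autoImplicit false

namespace Pool.Agent.Results.MP_6d896a_gt.ConditionedLevelSets

open MeasureTheory Set
open scoped ENNReal InnerProductSpace

/-- Euclidean space of dimension `n` -/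
abbrev Euc (n : ℕ) : Type := EuclideanSpace ℝ (Fin n)

/-- the uniform probability measure on `K` -/
noncomputable def unif {n : ℕ} (K : Set (Euc n)) : Measure (Euc n) :=
  (volume K)⁻¹ • volume.restrict K

/-- `S - ‖A x‖²/2` and `κ ‖A x‖²/2 - S` are convex: `S` has condition number at most `κ` relative to
the quadratic form `‖A x‖²` (which may be degenerate) -/
structure Conditioned (κ : ℝ) {m k : ℕ} (A : Euc m →ₗ[ℝ] Euc k) (S : Euc m → ℝ) : Prop where
  lower : ConvexOn ℝ univ fun x => S x - ‖A x‖ ^ 2 / 2
  upper : ConvexOn ℝ univ fun x => κ * (‖A x‖ ^ 2 / 2) - S x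

/-- `K = {x | S_j(x) ≤ e_j for all j < r}`, bounded, with a point where all inequalities are strict,
for functions `S_j ≥ 0` of condition number at most `κ` relative to some quadratic forms -/
def ConditionedLevelSet (κ : ℝ) (r : ℕ) {m : ℕ} (K : Set (Euc m)) : Prop :=
  ∃ (k : Fin r → ℕ) (A : ∀ j, Euc m →ₗ[ℝ] Euc (k j)) (S : Fin r → Euc m → ℝ) (e : Fin r → ℝ),
    (∀ j, Conditioned κ (A j) (S j)) ∧ (∀ j x, 0 ≤ S j x) ∧ (∃ x, ∀ j, S j x < e j) ∧
    K = {x | ∀ j, S j x ≤ e j} ∧ Bornology.IsBounded K

/-- the boundary measure `μ⁺(S)`, the lower limit of `(μ(S_ε) - μ(S)) / ε` for the open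
neighbourhoods `S_ε` of `S` -/
noncomputable def bdry {n : ℕ} (μ : Measure (Euc n)) (S : Set (Euc n)) : ℝ≥0∞ :=
  Filter.liminf (fun ε : ℝ => (μ (Metric.thickening ε S) - μ S) / ENNReal.ofReal ε)
    (nhdsWithin 0 (Set.Ioi 0))

/-- `μ⁺(S) √s ≥ c min(μ S, μ Sᶜ)` for all measurable sets `S` of measure one half and for every bound
`s` of the variances of the marginals of `μ` in directions of length one -/
def KLSHalf {n : ℕ} (c : ℝ) (μ : Measure (Euc n)) : Prop :=
  ∀ s : ℝ, 0 < s →
    (∀ θ : Euc n, ‖θ‖ = 1 → ProbabilityTheory.variance (fun x => ⟪x, θ⟫_ℝ) μ ≤ s) →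
    ∀ S : Set (Euc n), MeasurableSet S → μ S = 1 / 2 →
      ENNReal.ofReal (c / Real.sqrt s) * min (μ S) (μ Sᶜ) ≤ bdry μ S

/-- all linear images `μ` of the uniform measure on `K` satisfy `KLSHalf c μ` -/
def ImagesKLS {m : ℕ} (c : ℝ) (K : Set (Euc m)) : Prop :=
  ∀ (n : ℕ) (L : Euc m →ₗ[ℝ] Euc n) (μ : Measure (Euc n)), μ = Measure.map L (unif K) →
    IsProbabilityMeasure μ ∧ KLSHalf c μ

/-- from the functional inequality to all linear images -/
theorem images_of {m : ℕ} {K : Set (Euc m)} (hK : IsCompact K) (hi : (interior K).Nonempty)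
    {c : ℝ} (hc : 0 < c) (hs : Pool.Agent.Y506.RG.Star c (Pool.Agent.Y506.PV.ind K)) (n : ℕ)
    (L : Euc m →ₗ[ℝ] Euc n) : IsProbabilityMeasure (Measure.map L (unif K)) ∧
      KLSHalf (1 / (4 * c)) (Measure.map L (unif K)) := by
  have hA := Pool.Agent.Y506.PV.adm_ind K hK.measurableSet hK.isBounded
    (Pool.Agent.Y506.PV.vol_pos hi)
  have h := Pool.Agent.Y506.RG.half_of_star Pool.Agent.Y429.RG.minkm hA c hc hs n L
    (Measure.map L (Pool.Agent.Y506.RG.pm (Pool.Agent.Y506.PV.ind K))) rfl
  rw [Pool.Agent.Y506.PV.pm_ind K hK.measurableSet] at h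
  obtain ⟨hp, H⟩ := h
  have hp' : IsProbabilityMeasure (Measure.map L (unif K)) := hp
  refine ⟨hp', fun s hs hvar S hS hS2 => ?_⟩
  refine le_trans ?_ (H s hs hvar S hS2)
  calc _ ≤ ENNReal.ofReal (1 / (4 * c) / Real.sqrt s) * 1 :=
        mul_le_mul_right ((min_le_left _ _).trans prob_le_one) _
    _ = _ := mul_one _

theorem affine_eq {m n : ℕ} (T : Euc m →ᵃ[ℝ] Euc n) (K : Set (Euc m)) :
    T '' K = (fun x => T 0 + T.linear x) '' K := by
  refine image_congr fun x _ => ?_
  have h := T.map_vadd 0 x
  rw [vadd_eq_add, add_zero] at h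
  rw [h, vadd_eq_add, add_comm]

/-- **Few convex functions of bounded condition number.** For all `κ ≥ 0`, `r` and `p` there is
`c > 0` such that for all `m`, `n ≥ 1`, all bodies `K = {x | S_j(x) ≤ e_j, j < r}` in `ℝ^m` of the class
`ConditionedLevelSet κ r` and all affine maps `T` of `ℝ^m` onto `ℝⁿ`, `m ≤ n + p`, the law `μ` of every
linear image of a point uniformly distributed in `T K` is a probability measure with
`μ⁺(S) √‖Cov μ‖ ≥ c min(μ S, μ Sᶜ)` for all measurable `S` with `μ S = 1/2`. -/
theorem result : ∀ (κ : ℝ) (r p : ℕ), 0 ≤ κ → ∃ c : ℝ, 0 < c ∧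
    ∀ (m n : ℕ) (K : Set (Euc m)) (T : Euc m →ᵃ[ℝ] Euc n), 1 ≤ n → ConditionedLevelSet κ r K →
    m ≤ n + p → Function.Surjective T → ImagesKLS c (T '' K) := by
  intro κ r p hκ
  obtain ⟨c, hc, H⟩ := Pool.Agent.N483.KM.micro_star (fun _ => κ) r 0 p
  refine ⟨1 / (4 * c), by positivity, fun m n K T hn hK hm hT k L μ hμ => ?_⟩
  have hT' : Function.Surjective T.linear := by rwa [AffineMap.linear_surjective_iff]
  have hmn : n ≤ m := by
    have h1 := LinearMap.finrank_le_finrank_of_surjective hT'
    simpa using h1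
  obtain ⟨kk, A, S, e, h1, h2, h3, h4, h5⟩ := hK
  have hCL : Run7.h444.CL κ S A e K := ⟨fun j => (h1 j).lower, fun j => (h1 j).upper, h2, h5, h3, h4⟩
  have h6 := H m n _ T.linear (T 0) (hCL.micro hκ (hn.trans hmn)) hm hT'
  rw [← affine_eq] at h6
  obtain ⟨g1, g2, g3, g4⟩ := h6
  rw [hμ]
  exact images_of g1 g3 hc g4 k L

/-- intersections of `r` ellipsoids and elliptic cylinders -/
theorem ellipsoids (r m : ℕ) (k : Fin r → ℕ) (A : ∀ j, Euc m →ₗ[ℝ] Euc (k j))
    (b : ∀ j, Euc (k j)) (K : Set (Euc m)) (hK : K = {x | ∀ j, ‖A j x + b j‖ ≤ 1})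
    (hb : Bornology.IsBounded K) (hx : ∃ x, ∀ j, ‖A j x + b j‖ < 1) :
    ConditionedLevelSet 1 r K := by
  have hA : ∀ j x, ‖(Real.sqrt 2 • A j) x‖ ^ 2 / 2 = ‖A j x‖ ^ 2 := by
    intro j x
    rw [LinearMap.smul_apply, norm_smul, mul_pow, Real.norm_of_nonneg (Real.sqrt_nonneg _),
      Real.sq_sqrt (by norm_num)]
    ring
  have he : ∀ j x, ‖A j x + b j‖ ^ 2 - ‖A j x‖ ^ 2 = 2 * ⟪A j x, b j⟫_ℝ + ‖b j‖ ^ 2 := by
    intro j x
    rw [@norm_add_sq_real]
    ring
  refine ⟨k, fun j => Real.sqrt 2 • A j, fun j x => ‖A j x + b j‖ ^ 2, fun _ => 1,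
    fun j => ⟨?_, ?_⟩, fun j x => sq_nonneg _, ?_, ?_, hb⟩
  · simp only [hA, he]
    refine ⟨convex_univ, fun x _ y _ a c ha hc hac => le_of_eq ?_⟩
    simp only [smul_eq_mul, map_add, map_smul, inner_add_left, inner_smul_left, conj_trivial]
    have : c = 1 - a := by linarith
    rw [this]
    ring
  · simp only [hA, one_mul]
    have he' : ∀ x, ‖A j x‖ ^ 2 - ‖A j x + b j‖ ^ 2 = -(2 * ⟪A j x, b j⟫_ℝ + ‖b j‖ ^ 2) := by
      intro x
      rw [← he]
      ring
    simp only [he']
    refine ⟨convex_univ, fun x _ y _ a c ha hc hac => le_of_eq ?_⟩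
    simp only [smul_eq_mul, map_add, map_smul, inner_add_left, inner_smul_left, conj_trivial]
    have : c = 1 - a := by linarith
    rw [this]
    ring
  · obtain ⟨x, hx⟩ := hx
    exact ⟨x, fun j => (sq_lt_one_iff₀ (norm_nonneg _)).2 (hx j)⟩
  · rw [hK]
    ext x
    simp only [mem_ofPred_eq]
    exact forall_congr' fun j => (sq_le_one_iff₀ (norm_nonneg _)).symm

end Pool.Agent.Results.MP_6d896a_gt.ConditionedLevelSets
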