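import Pool.Agent.Run7.h523.KF.ALLM

/-!
# KLS for 1-symmetric convex bodies and log-concave measures cut by order cones

Let `L ⊂ ℝⁿ` be a convex body invariant under permutations and changes of signs of the coordinates (the
unit ball of a 1-symmetric norm) and let `K = L ∩ C`, where the cone `C` is given by ANY set of
inequalities of the forms `x_i ≤ x_j`, `x_i + x_j ≤ 0`, `0 ≤ x_i + x_j`, `x_i ≤ 0`, `0 ≤ x_i`. If `K` has an
interior, its uniform measure `μ` satisfies, for all Borel sets `S`,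

(a) `μ⁺(S) ≥ (c / √s) min (μ S, 1 - μ S)` if `E_L x_i² ≤ s` (`c` is absolute, so the constant of `K` is at least
the one of `L` up to an absolute factor);
(b) the inequality of Kannan, Lovasz and Simonovits, `μ⁺(S) √‖Cov μ‖ ≥ c min (μ S, 1 - μ S)`, if all inequalities
are of the form `x_i ≤ x_j` (`K = L ∩ {x_i ≤ x_j for i < j in P}` for any partial order `P`), or if `L` is the cube
(examples: the fractional stable set polytopes of all graphs, the order polytopes of all signed posets).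
(c) For the cube, `Var f ≤ (4/π²) E ‖∇ f‖²`, the constant of the cube itself.
(d) The same for measures: every 1-symmetric log-concave probability measure conditioned on any such
cone has a Poincare constant at most `C E x_1²`, and `Var (∑ x_i) = n E x_1²` if all inequalities are
`x_i ≤ x_j`.

The starting files have the cases `C = ℝⁿ` of (d) (`OneSymmetric`) and the unsigned case of the cube
(`MP_8d00da_gt.OrderPolytopes`, by path coupling). Here the method is different: an `L²` argument.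

Proof. (1) Discrete spectral gap. Labels sit on the odd integers `|z| < 2M`, at most one on `{z, -z}`, and
satisfy the constraints. The bond `j ≥ 1` exchanges the levels `2j-1` and `2j+1` (on both sides of zero), the
bond `0` exchanges `1` and `-1`, moves which violate a constraint are suppressed, `D_j f(x) = f(x) - f(s_j x)`.
Bonds which are not adjacent commute, `⟨D_j f, D_k f⟩ ≥ 0`; the orbits of two adjacent bonds are hexagons
(octagons for the bonds 0 and 1), and the constraints cut them to at most half of the polygon, so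
`⟨D_j f, D_{j+1} f⟩ ≥ - cos(π/3) ‖D_j f‖ ‖D_{j+1} f‖` (`cos(π/4)` for `j = 0`). Hence
`‖∑ c_j D_j f‖² ≥ γ ∑ c_j ‖D_j f‖²` for all weights with a supersolution
`c_j (2 h_j - h_{j+1} - h_{j-1}) ≥ 2 γ h_j`, and this is the Poincare inequality by duality.
(2) `M → ∞`: `Var f ≤ (4/π²) E ‖∇ f‖²` on the polytopes in the cube.
(3) `M = n`, all levels occupied: the states are the Weyl chambers in `C`. In one chamber the Poincare
inequality is the one for symmetric functions (`OneSymmetric`). The means of `f` over adjacent chambers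
satisfy `(F_x - F_{s_j x})² ≤ 8 E τ_j² E ‖∇_j f‖²`, `τ_j` the distance to the common wall, and
`E τ_j² ≤ 256 σ² / (n - j)²`, `σ² = E x_1²`; both use only linear changes of variables and the monotonicity
of the density along lines. The discrete inequality with `c_j = (1 - (j/n)²)²`, `γ = 1/(2n²)` gives (d).
(4) Lower bounds for the covariance: `E (∑ x_i)² = n σ²` by symmetrisation over the permutations; for signed
cones in the cube the vector field `x_i - x_i³` is tangent to all walls. (5) Isoperimetry from the Poincare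
inequality: Buser and Ledoux (starting files `W695.KH`, and `h444.ER`).

Pieces by helpers 11, 67, 136, 194, 224, 299, 324, 340, 523, 531, 590, 593, 603, 704, 721, 760, 768, 847, 915, 961.
-/

set_option autoImplicit false

namespace Pool.Agent.Results.MP_6d896a_gt.OrderCones

open MeasureTheory Set
open scoped ENNReal InnerProductSpace

/-- Euclidean space of dimension `n` -/
abbrev Euc (n : ℕ) : Type := EuclideanSpace ℝ (Fin n)

/-- the uniform probability measure on `K` -/
noncomputable def unif {n : ℕ} (K : Set (Euc n)) : Measure (Euc n) :=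
  (volume K)⁻¹ • volume.restrict K

/-- the probability measure with density proportional to `w` on `K` -/
noncomputable def cond {n : ℕ} (w : Euc n → ℝ) (K : Set (Euc n)) : Measure (Euc n) :=
  (((volume.withDensity fun x => ENNReal.ofReal (w x)).restrict K) univ)⁻¹ •
    (volume.withDensity fun x => ENNReal.ofReal (w x)).restrict K

/-- the boundary measure `μ⁺(S)`, the lower limit of `(μ(S_ε) - μ(S)) / ε` for the open
neighbourhoods `S_ε` of `S` -/
noncomputable def bdry {n : ℕ} (μ : Measure (Euc n)) (S : Set (Euc n)) : ℝ≥0∞ :=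
  Filter.liminf (fun ε : ℝ => (μ (Metric.thickening ε S) - μ S) / ENNReal.ofReal ε)
    (nhdsWithin 0 (Set.Ioi 0))

/-- the cone of all `x` with `x_i ≤ x_j` for `(i, j) ∈ A`, `x_i + x_j ≤ 0` for `(i, j) ∈ B` and
`0 ≤ x_i + x_j` for `(i, j) ∈ D` (`i = j` is allowed: `x_i ≤ 0` and `0 ≤ x_i`) -/
def cone {n : ℕ} (A B D : Set (Fin n × Fin n)) : Set (Euc n) :=
  {x | (∀ p ∈ A, x p.1 ≤ x p.2) ∧ (∀ p ∈ B, x p.1 + x p.2 ≤ 0) ∧ ∀ p ∈ D, 0 ≤ x p.1 + x p.2}

/-- the cube `[-1, 1]ⁿ` -/
def cube (n : ℕ) : Set (Euc n) := {x | ∀ i, |x i| ≤ 1}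

/-- convex bodies invariant under permutations and changes of signs of the coordinates -/
structure OneSymmetricBody {n : ℕ} (L : Set (Euc n)) : Prop where
  comp : IsCompact L
  conv : Convex ℝ L
  int : (interior L).Nonempty
  inv : ∀ σ : Equiv.Perm (Fin n), ∀ x ∈ L, ∀ y : Euc n, (∀ i, |y i| = |x (σ i)|) → y ∈ L

/-- log-concave probability densities invariant under permutations and changes of signs of the
coordinates -/
structure OneSymmetricDensity {n : ℕ} (w : Euc n → ℝ) : Prop where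
  nonneg : ∀ x, 0 ≤ w x
  meas : Measurable w
  logc : ∀ x y, ∀ t : ℝ, 0 < t → t < 1 → w x ^ (1 - t) * w y ^ t ≤ w ((1 - t) • x + t • y)
  inv : ∀ σ : Equiv.Perm (Fin n), ∀ x y : Euc n, (∀ i, |y i| = |x (σ i)|) → w y = w x
  mass : ∫⁻ x, ENNReal.ofReal (w x) = 1

/-- the inequality of Kannan, Lovasz and Simonovits with the constant `c` for the uniform measure
`μ` on `K`: `μ⁺(S) ≥ (c / √s) min(μ S, μ Sᶜ)` for all Borel sets `S` and all bounds `s` of the variances of
the marginals in directions of length one -/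
def KLS {n : ℕ} (c : ℝ) (K : Set (Euc n)) : Prop :=
  ∀ s : ℝ, 0 < s → (∀ θ : Euc n, ‖θ‖ = 1 →
      ProbabilityTheory.variance (fun x => ⟪x, θ⟫_ℝ) (unif K) ≤ s) →
    ∀ S : Set (Euc n), MeasurableSet S →
      ENNReal.ofReal (c / Real.sqrt s) * min (unif K S) (unif K Sᶜ) ≤ bdry (unif K) S

/-- Poincare's inequality with the constant `C` for bounded `C¹` functions with bounded gradient -/
def Poincare {n : ℕ} (C : ℝ) (μ : Measure (Euc n)) : Prop :=
  ∀ f : Euc n → ℝ, ContDiff ℝ 1 f → (∃ M : ℝ, ∀ x, |f x| ≤ M ∧ ‖fderiv ℝ f x‖ ≤ M) →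
    ProbabilityTheory.variance f μ ≤ C * ∫ x, ‖fderiv ℝ f x‖ ^ 2 ∂μ

/-! ### translation -/

open Run7.h523.KF

/-- the relation between signed labels -/
def RR {n : ℕ} (A B D : Set (Fin n × Fin n)) (a b : Fin n × Bool) : Prop :=
  (a.2 = true ∧ b.2 = true ∧ (a.1, b.1) ∈ A) ∨ (a.2 = true ∧ b.2 = false ∧ (a.1, b.1) ∈ B) ∨
    (a.2 = false ∧ b.2 = true ∧ (a.1, b.1) ∈ D)

theorem cone_eq {n : ℕ} (A B D : Set (Fin n × Fin n)) : cone A B D = EE (KC (RR A B D)) := by
  ext x
  constructor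
  · rintro ⟨h1, h2, h3⟩
    rintro ⟨i, a⟩ ⟨j, b⟩ (⟨ha, hb, h⟩ | ⟨ha, hb, h⟩ | ⟨ha, hb, h⟩)
    · have := h1 _ h
      simp only at ha hb this
      subst ha hb
      simpa [sv] using this
    · have := h2 _ h
      simp only at ha hb this
      subst ha hb
      simp only [sv, if_true, Bool.false_eq_true, if_false]
      linarith
    · have := h3 _ h
      simp only at ha hb this
      subst ha hb
      simp only [sv, if_true, Bool.false_eq_true, if_false]
      linarith
  · intro h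
    refine ⟨fun p hp => ?_, fun p hp => ?_, fun p hp => ?_⟩
    · have := h (p.1, true) (p.2, true) (Or.inl ⟨rfl, rfl, hp⟩)
      simpa [sv] using this
    · have := h (p.1, true) (p.2, false) (Or.inr (Or.inl ⟨rfl, rfl, hp⟩))
      simp only [sv, if_true, Bool.false_eq_true, if_false] at this
      linarith
    · have := h (p.1, false) (p.2, true) (Or.inr (Or.inr ⟨rfl, rfl, hp⟩))
      simp only [sv, if_true, Bool.false_eq_true, if_false] at this
      linarith

theorem typeA {n : ℕ} (A : Set (Fin n × Fin n)) : TypeA (RR A ∅ ∅) := by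
  rintro a b (⟨ha, hb, -⟩ | ⟨-, -, h⟩ | ⟨-, -, h⟩)
  · exact ⟨ha, hb⟩
  · exact h.elim
  · exact h.elim

theorem cube_eq {n : ℕ} (R : Fin n × Bool → Fin n × Bool → Prop) :
    cube n ∩ EE (KC R) = EE (KK R) := by
  ext x
  constructor
  · rintro ⟨h1, h2⟩
    exact ⟨fun v => abs_le.1 (h1 v), h2⟩
  · rintro ⟨h1, h2⟩
    exact ⟨fun v => abs_le.2 (h1 v), h2⟩

theorem vol_pos {n : ℕ} {K : Set (Fin n → ℝ)} (h : (interior (EE K)).Nonempty) :
    0 < volume K := by
  rw [← vol_EE]
  exact lt_of_lt_of_le (isOpen_interior.measure_pos volume h) (measure_mono interior_subset)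

/-- the body in `Fin n → ℝ` -/
def LL {n : ℕ} (L : Set (Euc n)) : Set (Fin n → ℝ) := {y | WithLp.toLp 2 y ∈ L}

theorem EE_LL {n : ℕ} (L : Set (Euc n)) : EE (LL L) = L := by
  ext x
  exact Iff.rfl

theorem sb_of {n : ℕ} {L : Set (Euc n)} (h : OneSymmetricBody L) : SB (LL L) where
  comp := by
    have : LL L = WithLp.ofLp '' L := by
      ext y
      constructor
      · intro hy
        exact ⟨WithLp.toLp 2 y, hy, rfl⟩
      · rintro ⟨x, hx, rfl⟩
        exact hx
    rw [this]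
    exact h.comp.image (PiLp.continuous_ofLp 2 _)
  conv := by
    intro y hy z hz s t hs ht hst
    exact h.conv hy hz hs ht hst
  vol := vol_pos (by rw [EE_LL]; exact h.int)
  inv := fun σ x hx y hxy => h.inv σ (WithLp.toLp 2 x) hx (WithLp.toLp 2 y) hxy

theorem EE_inter {n : ℕ} (K K' : Set (Fin n → ℝ)) : EE K ∩ EE K' = EE (K ∩ K') := rfl

theorem bdry_eq {n : ℕ} (μ : Measure (Euc n)) (S : Set (Euc n)) :
    bdry μ S = Run7.h444.ER.bd μ S := rfl

theorem ne_fin {n : ℕ} (hn : 1 ≤ n) : Nonempty (Fin n) := ⟨⟨0, hn⟩⟩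

/-- second moment of a coordinate for the uniform measure -/
theorem mom_unif {n : ℕ} {L : Set (Euc n)} (h : OneSymmetricBody L) (i : Fin n) :
    ∫ x, x i ^ 2 ∂(unif L) = ∫ y, y i ^ 2 * rL (LL L) y := by
  have h1 := rL_int (sb_of h) univ MeasurableSet.univ (fun y => y i ^ 2)
  rw [Measure.restrict_univ, inter_univ] at h1
  rw [h1]
  unfold unif
  rw [integral_smul_measure, ENNReal.toReal_inv, smul_eq_mul]
  have h2 := int_EE (LL L) (fun x => x i ^ 2)
  rw [EE_LL] at h2
  have h3 := vol_EE (LL L)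
  rw [EE_LL] at h3
  rw [h2, h3]

/-- (a) all cones, in terms of the second moment of `L` -/
theorem part_a {K : ℝ} (hK : 0 < K) (hC : S_CMB K) {n : ℕ} (hn : 1 ≤ n) {L : Set (Euc n)}
    (h : OneSymmetricBody L) (A B D : Set (Fin n × Fin n))
    (hi : (interior (L ∩ cone A B D)).Nonempty) (s : ℝ) (hs : 0 < s)
    (hm : ∀ i, ∫ x, x i ^ 2 ∂(unif L) ≤ s) (S : Set (Euc n)) (hS : MeasurableSet S) :
    ENNReal.ofReal (1 / (2 * Real.sqrt (40 * (K + 2 ^ 14))) / Real.sqrt s) *
      min (unif (L ∩ cone A B D) S) (unif (L ∩ cone A B D) Sᶜ) ≤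
        bdry (unif (L ∩ cone A B D)) S := by
  have hne := ne_fin hn
  obtain ⟨i⟩ := hne
  have hne : Nonempty (Fin n) := ⟨i⟩
  have hsb := sb_of h
  have hKe : L ∩ cone A B D = EE (LL L ∩ KC (RR A B D)) := by
    rw [cone_eq, ← EE_inter, EE_LL]
  have hv : 0 < volume (LL L ∩ KC (RR A B D)) := vol_pos (by rw [← hKe]; exact hi)
  have h0 := hsb.mpos i
  have h2 : ∫ y, y i ^ 2 * rL (LL L) y ≤ s := by
    rw [← mom_unif h]
    exact hm i
  have hC' : 0 < (K + 2 ^ 14) * ∫ y, y i ^ 2 * rL (LL L) y := by positivity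
  obtain ⟨μ, hμ⟩ : ∃ μ, μ = unif (L ∩ cone A B D) := ⟨_, rfl⟩
  have hμ' : μ = (volume (EE (LL L ∩ KC (RR A B D))))⁻¹ •
      volume.restrict (EE (LL L ∩ KC (RR A B D))) := by
    rw [hμ, hKe]
    rfl
  rw [← hμ]
  have h1 := (poi_body hC all_syr (RR A B D) hsb hv i h0).iso hC'
    (hsb.comp.inter_right (KC_closed _)) (hsb.conv.inter (KC_convex _)) hv μ hμ' S hS
  rw [bdry_eq]
  refine (mul_le_mul_right h1 _).trans ?_
  rw [← mul_assoc, ← ENNReal.ofReal_mul (by positivity)]
  refine (mul_le_mul' (ENNReal.ofReal_le_one.2 ?_) le_rfl).trans_eq (one_mul _)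
  have hs0 : 0 < Real.sqrt s := Real.sqrt_pos.2 hs
  have hK' : 0 < Real.sqrt (40 * (K + 2 ^ 14)) := Real.sqrt_pos.2 (by positivity)
  have h3 : Real.sqrt (40 * ((K + 2 ^ 14) * ∫ y, y i ^ 2 * rL (LL L) y)) ≤
      Real.sqrt (40 * (K + 2 ^ 14)) * Real.sqrt s := by
    rw [← Real.sqrt_mul (by positivity)]
    refine Real.sqrt_le_sqrt ?_
    rw [← mul_assoc]
    exact mul_le_mul_of_nonneg_left h2 (by positivity)
  calc 1 / (2 * Real.sqrt (40 * (K + 2 ^ 14))) / Real.sqrt s *
        (2 * Real.sqrt (40 * ((K + 2 ^ 14) * ∫ y, y i ^ 2 * rL (LL L) y)))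
      ≤ 1 / (2 * Real.sqrt (40 * (K + 2 ^ 14))) / Real.sqrt s *
        (2 * (Real.sqrt (40 * (K + 2 ^ 14)) * Real.sqrt s)) := by gcongr
    _ = 1 := by field_simp

/-- (b) order cones -/
theorem part_b {K : ℝ} (hK : 0 < K) (hC : S_CMB K) {n : ℕ} (hn : 1 ≤ n) {L : Set (Euc n)}
    (h : OneSymmetricBody L) (A : Set (Fin n × Fin n))
    (hi : (interior (L ∩ cone A ∅ ∅)).Nonempty) :
    KLS (1 / (2 * Real.sqrt (40 * (K + 2 ^ 14)))) (L ∩ cone A ∅ ∅) := by
  intro s hs hvar S hS
  have hne := ne_fin hn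
  have hsb := sb_of h
  have hKe : L ∩ cone A ∅ ∅ = EE (LL L ∩ KC (RR A ∅ ∅)) := by
    rw [cone_eq, ← EE_inter, EE_LL]
  have hv : 0 < volume (LL L ∩ KC (RR A ∅ ∅)) := vol_pos (by rw [← hKe]; exact hi)
  obtain ⟨μ, hμ⟩ : ∃ μ, μ = unif (L ∩ cone A ∅ ∅) := ⟨_, rfl⟩
  have hμ' : μ = (volume (EE (LL L ∩ KC (RR A ∅ ∅))))⁻¹ •
      volume.restrict (EE (LL L ∩ KC (RR A ∅ ∅))) := by
    rw [hμ, hKe]
    rfl
  rw [← hμ] at hvar ⊢
  exact kls_body hK hC all_syr (typeA A) hsb hv μ hμ' s hs hvar S hS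

/-- (b), (c) the cube -/
theorem part_c {n : ℕ} (hn : 1 ≤ n) (A B D : Set (Fin n × Fin n))
    (hi : (interior (cube n ∩ cone A B D)).Nonempty) : KLS (1 / 64) (cube n ∩ cone A B D) ∧
    ∀ f : Euc n → ℝ, ContDiff ℝ 1 f → ProbabilityTheory.variance f (unif (cube n ∩ cone A B D)) ≤
      4 / Real.pi ^ 2 * ∫ x, ‖fderiv ℝ f x‖ ^ 2 ∂(unif (cube n ∩ cone A B D)) := by
  have hne := ne_fin hn
  have hKe : cube n ∩ cone A B D = EE (KK (RR A B D)) := by rw [cone_eq, cube_eq]
  have hv : 0 < volume (KK (RR A B D)) := vol_pos (by rw [← hKe]; exact hi)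
  obtain ⟨μ, hμ⟩ : ∃ μ, μ = unif (cube n ∩ cone A B D) := ⟨_, rfl⟩
  have hμ' : μ = (volume (EE (KK (RR A B D))))⁻¹ •
      volume.restrict (EE (KK (RR A B D))) := by
    rw [hμ, hKe]
    rfl
  constructor
  · intro s hs hvar S hS
    rw [← hμ] at hvar ⊢
    have h1 := kls_KK all_disc (RR A B D) hv μ hμ' s hs hvar S hS
    have h2 : 1 / (64 : ℝ) / Real.sqrt s = 1 / (64 * Real.sqrt s) := by
      rw [div_div]
    rw [h2]
    exact h1
  · intro f hf
    rw [← hμ]
    have h1 := (poi_KK all_disc (RR A B D) hv).V (KK_compact _) hv f hf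
    rw [var_EE (KK_compact _) hv μ hμ' f hf.continuous]
    have hint : ∫ x, ‖fderiv ℝ f x‖ ^ 2 ∂μ = Pool.Agent.W695.KH.EV (EE (KK (RR A B D)))
        fun x => ‖fderiv ℝ f x‖ ^ 2 := by
      unfold Pool.Agent.W695.KH.EV
      rw [hμ', integral_smul_measure, ENNReal.toReal_inv, smul_eq_mul, inv_mul_eq_div]
    rw [hint]
    refine le_trans (le_of_eq ?_) h1
    unfold Pool.Agent.W695.KH.VV Pool.Agent.W695.KH.EV
    rw [int_EE (KK (RR A B D)) (fun x => f x ^ 2), int_EE (KK (RR A B D)) f, vol_EE]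

/-! ### densities -/

theorem bf_of {n : ℕ} {f : Euc n → ℝ} (hf : ContDiff ℝ 1 f) {M : ℝ}
    (hM : ∀ x, |f x| ≤ M ∧ ‖fderiv ℝ f x‖ ≤ M) :
    Bf (fun y : Fin n → ℝ => f (WithLp.toLp 2 y)) M where
  cd := hf.comp PiLp.contDiff_toLp
  bd := fun x => (hM _).1
  db := fun x v => by
    rw [fd_toLp (hf.differentiable one_ne_zero), ← Real.norm_eq_abs]
    refine ((fderiv ℝ f (WithLp.toLp 2 x)).le_opNorm _).trans ?_
    rw [EuclideanSpace.norm_single, norm_one, mul_one]
    exact (hM _).2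

theorem cond_eq {n : ℕ} (w : Euc n → ℝ) (K : Set (Euc n)) : cond w K = cnd w K := rfl

theorem poinc_of {n : ℕ} {w : Euc n → ℝ} (hw0 : ∀ x, 0 ≤ w x) (hwm : Measurable w)
    {K : Set (Fin n → ℝ)} (hK : MeasurableSet K) (hZ : 0 < ∫ y in K, w (WithLp.toLp 2 y)) (C : ℝ)
    (H : ∀ (f : (Fin n → ℝ) → ℝ) (M : ℝ), Bf f M →
      (∫ y in K, f y ^ 2 * w (WithLp.toLp 2 y)) / (∫ y in K, w (WithLp.toLp 2 y)) -
        ((∫ y in K, f y * w (WithLp.toLp 2 y)) / ∫ y in K, w (WithLp.toLp 2 y)) ^ 2 ≤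
      C * ((∫ y in K, gr f y * w (WithLp.toLp 2 y)) / ∫ y in K, w (WithLp.toLp 2 y))) :
    Poincare C (cond w (EE K)) := by
  intro f hf ⟨M, hM⟩
  rw [cond_eq]
  have hprob := cnd_prob hw0 hwm hK hZ
  have hi : Integrable (fun x => f x ^ 2) (cnd w (EE K)) := by
    refine Integrable.of_bound (hf.continuous.pow 2).aestronglyMeasurable (M ^ 2)
      (Filter.Eventually.of_forall fun x => ?_)
    rw [Real.norm_eq_abs, abs_pow]
    exact pow_le_pow_left₀ (abs_nonneg _) (hM x).1 2
  rw [cnd_var hw0 hwm hK hZ f hf.continuous.aestronglyMeasurable hi,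
    cnd_int hw0 hwm hK hZ (fun x => ‖fderiv ℝ f x‖ ^ 2)]
  have h1 := H _ M (bf_of hf hM)
  simp only [gr_toLp (hf.differentiable one_ne_zero)] at h1
  exact h1

theorem sy_of {n : ℕ} {w : Euc n → ℝ} (h : OneSymmetricDensity w) :
    Sy1 fun y : Fin n → ℝ => w (WithLp.toLp 2 y) where
  nonneg := fun _ => h.nonneg _
  meas := h.meas.comp (WithLp.measurable_toLp 2 _)
  logc := fun x y t h0 h1 => h.logc _ _ t h0 h1
  inv := fun σ x y hxy => h.inv σ _ _ hxy
  mass := by
    rw [← h.mass]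
    exact (PiLp.volume_preserving_toLp (Fin n)).lintegral_comp_emb
      (MeasurableEquiv.toLp 2 (Fin n → ℝ)).measurableEmbedding (fun x => ENNReal.ofReal (w x))

theorem mom_of {n : ℕ} {w : Euc n → ℝ} {s : ℝ}
    (hs : ∀ i, ∫⁻ x : Euc n, ENNReal.ofReal (x i ^ 2 * w x) ≤ ENNReal.ofReal s) :
    Mom2 (fun y : Fin n → ℝ => w (WithLp.toLp 2 y)) s := by
  intro i
  refine le_trans (le_of_eq ?_) (hs i)
  exact (PiLp.volume_preserving_toLp (Fin n)).lintegral_comp_emb
    (MeasurableEquiv.toLp 2 (Fin n → ℝ)).measurableEmbedding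
    (fun x => ENNReal.ofReal (x i ^ 2 * w x))

theorem z_of {n : ℕ} {w : Euc n → ℝ} (h : OneSymmetricDensity w) {K : Set (Fin n → ℝ)}
    (hK : MeasurableSet K)
    (hp : 0 < (volume.withDensity fun x => ENNReal.ofReal (w x)) (EE K)) :
    0 < ∫ y in K, w (WithLp.toLp 2 y) := by
  have hsy := sy_of h
  have hint : Integrable fun y : Fin n → ℝ => w (WithLp.toLp 2 y) := by
    refine ⟨hsy.meas.aestronglyMeasurable, ?_⟩
    rw [hasFiniteIntegral_iff_ofReal (Filter.Eventually.of_forall hsy.nonneg), hsy.mass]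
    exact ENNReal.one_lt_top
  have h1 := int_EE K w
  rw [← h1]
  rw [withDensity_apply _ (EE_meas hK)] at hp
  have h2 : IntegrableOn w (EE K) := by
    have h3 := (PiLp.volume_preserving_toLp (Fin n)).integrable_comp_emb
      (MeasurableEquiv.toLp 2 (Fin n → ℝ)).measurableEmbedding (g := w)
    exact (h3.1 hint).integrableOn
  rw [← ENNReal.ofReal_pos, ofReal_integral_eq_lintegral_ofReal h2
    (Filter.Eventually.of_forall h.nonneg)]
  exact hp

/-- (d) -/
theorem part_d {K : ℝ} (hC : S_CMB K) {n : ℕ} (hn : 1 ≤ n) {w : Euc n → ℝ}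
    (h : OneSymmetricDensity w) (A B D : Set (Fin n × Fin n))
    (hp : 0 < (volume.withDensity fun x => ENNReal.ofReal (w x)) (cone A B D)) (s : ℝ)
    (hs : 0 < s) (hm : ∀ i, ∫⁻ x : Euc n, ENNReal.ofReal (x i ^ 2 * w x) ≤ ENNReal.ofReal s) :
    Poincare ((K + 2 ^ 14) * s) (cond w (cone A B D)) := by
  have hne := ne_fin hn
  rw [cone_eq] at hp ⊢
  have hKm : MeasurableSet (KC (RR A B D)) := (KC_closed _).measurableSet
  have hZ := z_of h hKm hp
  refine poinc_of h.nonneg h.meas hKm hZ _ fun f M hf => ?_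
  have h1 := hC (Fin n) (RR A B D) _ s M f (sy_of h) hs (mom_of hm) hf hZ
  have h2 : ∀ a b Z : ℝ, 0 < Z → a / Z - (b / Z) ^ 2 = (a - b ^ 2 / Z) / Z := by
    intro a b V hV
    field_simp
  rw [h2 _ _ _ hZ, ← mul_div_assoc, div_le_div_iff_of_pos_right hZ]
  exact h1

/-- (d) the direction of `(1, …, 1)` -/
theorem part_d' {n : ℕ} (hn : 1 ≤ n) {w : Euc n → ℝ}
    (h : OneSymmetricDensity w) (A : Set (Fin n × Fin n))
    (hp : 0 < (volume.withDensity fun x => ENNReal.ofReal (w x)) (cone A ∅ ∅)) (s : ℝ)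
    (hm : ∀ i, ∫⁻ x : Euc n, ENNReal.ofReal (x i ^ 2 * w x) ≤ ENNReal.ofReal s) (i : Fin n) :
    ProbabilityTheory.variance (fun x : Euc n => ∑ j, x j) (cond w (cone A ∅ ∅)) =
      n * ∫ x : Euc n, x i ^ 2 * w x := by
  have hne := ne_fin hn
  rw [cone_eq] at hp ⊢
  have hKm : MeasurableSet (KC (RR A ∅ ∅)) := (KC_closed _).measurableSet
  have hZ := z_of h hKm hp
  have hsy := sy_of h
  have hmo := mom_of hm
  rw [cond_eq]
  -- integrability
  have hint : ∀ j, Integrable fun y : Fin n → ℝ => y j ^ 2 * w (WithLp.toLp 2 y) := by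
    intro j
    refine ⟨(((measurable_pi_apply j).pow_const 2).mul hsy.meas).aestronglyMeasurable, ?_⟩
    rw [hasFiniteIntegral_iff_ofReal (Filter.Eventually.of_forall fun y =>
      mul_nonneg (sq_nonneg _) (hsy.nonneg y))]
    exact (hmo j).trans_lt ENNReal.ofReal_lt_top
  have hint2 : Integrable fun y : Fin n → ℝ => (∑ j, y j) ^ 2 * w (WithLp.toLp 2 y) := by
    have h3 : Integrable fun y : Fin n → ℝ => n * ∑ j, y j ^ 2 * w (WithLp.toLp 2 y) :=
      (integrable_finsetSum _ fun j _ => hint j).const_mul _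
    refine h3.mono' (by
      have : Measurable fun y : Fin n → ℝ => (∑ j, y j) ^ 2 :=
        (Finset.measurable_sum _ fun j _ => measurable_pi_apply j).pow_const 2
      exact (this.mul hsy.meas).aestronglyMeasurable) (Filter.Eventually.of_forall fun y => ?_)
    rw [Real.norm_eq_abs, abs_of_nonneg (mul_nonneg (sq_nonneg _) (hsy.nonneg y)),
      ← Finset.sum_mul, ← mul_assoc]
    refine mul_le_mul_of_nonneg_right ?_ (hsy.nonneg y)
    have h4 := sq_sum_le_card_mul_sum_sq (s := (Finset.univ : Finset (Fin n))) (f := fun j => y j)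
    rwa [Finset.card_univ, Fintype.card_fin] at h4
  have hms : Measurable fun x : Euc n => ∑ j, x j :=
    Finset.measurable_sum _ fun j _ => (measurable_pi_apply j).comp (WithLp.measurable_ofLp 2 _)
  rw [cnd_var h.nonneg h.meas hKm hZ _ hms.aestronglyMeasurable
    (cnd_integrable h.nonneg h.meas hKm hZ _ (hms.pow_const 2) hint2.integrableOn)]
  obtain ⟨h5, h6⟩ := all_syr (Fin n) (RR A ∅ ∅) _ s (typeA A) hsy hmo
  have h6 := h6 i
  simp only [] at h5 h6 ⊢
  rw [h5, h6, zero_div, zero_pow two_ne_zero, sub_zero, mul_div_assoc,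
    Fintype.card_fin]
  have h7 : ∫ y : Fin n → ℝ, y i ^ 2 * w (WithLp.toLp 2 y) = ∫ x : Euc n, x i ^ 2 * w x := by
    have h8 := int_EE univ (fun x : Euc n => x i ^ 2 * w x)
    rw [Measure.restrict_univ] at h8
    rw [← h8]
    have : EE (univ : Set (Fin n → ℝ)) = univ := rfl
    rw [this, Measure.restrict_univ]
  rw [h7]
  field_simp

/-- **KLS for 1-symmetric bodies and measures cut by order cones.** There are absolute constants
`c, C > 0` such that for all `n ≥ 1` and all sets `A`, `B`, `D` of pairs: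

(a) for every 1-symmetric convex body `L ⊂ ℝⁿ` such that `K = L ∩ cone A B D` has an interior and every
`s > 0` with `E_L x_i² ≤ s`: `μ⁺(S) ≥ (c / √s) min(μ S, μ Sᶜ)` for all Borel sets `S`, `μ` uniform on `K`;
(b) for every 1-symmetric convex body `L` such that `K = L ∩ cone A ∅ ∅` (inequalities `x_i ≤ x_j` only)
has an interior, `K` satisfies the KLS inequality with the constant `c`;
(c) if the polytope `K = [-1, 1]ⁿ ∩ cone A B D` has an interior then it satisfies the KLS inequality with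
the constant `1/64`, and `Var f ≤ (4/π²) E ‖∇ f‖²` for all `C¹` functions `f`;
(d) for every 1-symmetric log-concave probability density `w` on `ℝⁿ` with `∫ x_i² w ≤ s` for all `i`, if the
cone has positive measure, the measure `w dx` conditioned on `cone A B D` satisfies Poincare's
inequality with the constant `C s`; and conditioned on `cone A ∅ ∅`, it has
`Var (∑ x_j) = n ∫ x_i² w`. -/
theorem result : ∃ c C : ℝ, 0 < c ∧ 0 < C ∧ ∀ (n : ℕ), 1 ≤ n →
    ∀ A B D : Set (Fin n × Fin n),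
    (∀ L : Set (Euc n), OneSymmetricBody L →
      ((interior (L ∩ cone A B D)).Nonempty → ∀ s : ℝ, 0 < s →
        (∀ i, ∫ x, x i ^ 2 ∂(unif L) ≤ s) → ∀ S : Set (Euc n), MeasurableSet S →
        ENNReal.ofReal (c / Real.sqrt s) *
          min (unif (L ∩ cone A B D) S) (unif (L ∩ cone A B D) Sᶜ) ≤
            bdry (unif (L ∩ cone A B D)) S) ∧
      ((interior (L ∩ cone A ∅ ∅)).Nonempty → KLS c (L ∩ cone A ∅ ∅))) ∧
    ((interior (cube n ∩ cone A B D)).Nonempty → KLS (1 / 64) (cube n ∩ cone A B D) ∧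
      ∀ f : Euc n → ℝ, ContDiff ℝ 1 f →
        ProbabilityTheory.variance f (unif (cube n ∩ cone A B D)) ≤
          4 / Real.pi ^ 2 * ∫ x, ‖fderiv ℝ f x‖ ^ 2 ∂(unif (cube n ∩ cone A B D))) ∧
    ∀ w : Euc n → ℝ, OneSymmetricDensity w → ∀ s : ℝ, 0 < s →
      (∀ i, ∫⁻ x : Euc n, ENNReal.ofReal (x i ^ 2 * w x) ≤ ENNReal.ofReal s) →
      (0 < (volume.withDensity fun x => ENNReal.ofReal (w x)) (cone A B D) →
        Poincare (C * s) (cond w (cone A B D))) ∧
      (0 < (volume.withDensity fun x => ENNReal.ofReal (w x)) (cone A ∅ ∅) → ∀ i : Fin n,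
        ProbabilityTheory.variance (fun x : Euc n => ∑ j, x j) (cond w (cone A ∅ ∅)) =
          n * ∫ x : Euc n, x i ^ 2 * w x) := by
  obtain ⟨K, hK, hC⟩ := all_cmb
  refine ⟨1 / (2 * Real.sqrt (40 * (K + 2 ^ 14))), K + 2 ^ 14, by positivity, by positivity,
    fun n hn A B D => ⟨fun L hL => ⟨fun hi s hs hm S hS => ?_, fun hi => ?_⟩, fun hi => ?_,
      fun w hw s hs hm => ⟨fun hp => ?_, fun hp i => ?_⟩⟩⟩
  · exact part_a hK hC hn hL A B D hi s hs hm S hS
  · exact part_b hK hC hn hL A hi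
  · exact part_c hn A B D hi
  · exact part_d hC hn hw A B D hp s hs hm
  · exact part_d' hn hw A hp s hm i

end Pool.Agent.Results.MP_6d896a_gt.OrderCones
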