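import Pool.Agent.Run7.h444.RC.F

/-!
# KLS for convex bodies with reflections from the concentration of invariant sets at one scale

Let `K ⊂ ℝⁿ` be a convex body (not necessarily symmetric about a point) which is invariant under the
reflections `σ_j x = x - 2 ⟪e_j, x⟫ e_j` for an orthonormal family `e_1, …, e_q`, `q ≤ n`, and let `μ` be the
uniform measure on `K`. For `q = n` these are the unconditional bodies. There are absolute constants
`p, c > 0` such that, for all `n, q, K`: if for a number `r > 0` all Borel sets `S` which are invariant under ALL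
the `σ_j` and have `μ(S) ≥ 1/2` satisfy `μ(S_r) ≥ 1 - p`, then for all Borel sets `A` of measure one half

(a) `μ⁺(A) ≥ c min (t, 1 / r) min (μ A, 1 - μ A)`, if `t` is an isoperimetric constant for the halfspaces
orthogonal to `e_1, …, e_q` only;
(b) `μ⁺(A) ≥ c (r + √s)⁻¹ min (μ A, 1 - μ A)`, if `E ⟪e_j, X⟫² ≤ s` for `j ≤ q`.

The invariant sets are determined by their intersection with `K⁺ = {x ∈ K | ⟪e_j, x⟫ ≥ 0 for all j}`, and
`(S_r) ∩ K⁺` is the `r`-neighbourhood of `S ∩ K⁺` in `K⁺`. So the hypothesis is the concentration, at one scale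
`r` and one level `p`, of the uniform measure on `K⁺`, a part of `K` whose share of the volume is `2^{-q}`, and
the constants depend neither on `n` nor on `q`. (The results on the stability of the isoperimetric constant
under restriction to a convex subset of `K` lose a function of the share of the volume.) For `q = 0` this is
the theorem of E. Milman (concentration implies isoperimetry).

Proof. Let `P f(y) = E (f(X) | X + √h Z = y)` (`X` of law `μ`, `Z` Gaussian).
(1) Invariant functions: `P* P f` is invariant and `‖∇ (P* P f)‖ ≤ h^{-1/2}` if `|f| ≤ 1`, so the concentration of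
invariant sets gives `Var f ≤ δ + A E ‖∇ f‖²` for invariant `f`, `|f| ≤ 1`, with `δ = 16 p`, `A = 4 r² / δ`.
(2) Families of invariant functions: if `∑ F_a² ≤ 1` then `∑ Var F_a ≤ C (M² δ + M⁻²) + C A ∑ E ‖∇ F_a‖²`, with
constants independent of the number of functions (random signs, truncation at `M`, fourth moments).
(3) Functions which are even or odd for each `σ_j`, and odd for at least one `j`: `|F|` is invariant, and by
the fundamental theorem of calculus on the segments towards the hyperplane `e_j^⊥` (the density grows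
along them) `(E |F|)² ≤ 2 T² E ‖∇ F‖² + 2 s T⁻² E F²`; so `Var F ≤ (4/3) (Var |F| + 16 s E ‖∇ F‖²)`.
(4) Every `f` with `|f| ≤ 1` is the sum of `2^q` functions `F_a` as in (3), orthogonal in `L²` together with
their gradients, and `∑ F_a² ≤ 1` (it is the mean of `f²` on the orbit). Apply (2) to the family of all `|F_a|`:
`Var f ≤ 1/100 + C (r² + s) E ‖∇ f‖²` for all `f`, `|f| ≤ 1`; nothing is lost in `q`.
(5) This weak Poincare inequality implies the isoperimetric inequality (starting library `W695.KH`,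
Ledoux's argument for a discrete heat flow), and halfspaces control the variances (`Y211.FF`).
-/

set_option autoImplicit false

namespace Pool.Agent.Results.MP_6d896a_gt.ReflectionConcentration

open MeasureTheory Set
open scoped ENNReal InnerProductSpace

/-- Euclidean space of dimension `n` -/
abbrev Euc (n : ℕ) : Type := EuclideanSpace ℝ (Fin n)

/-- the uniform probability measure on `K` -/
noncomputable def unif {n : ℕ} (K : Set (Euc n)) : Measure (Euc n) :=
  (volume K)⁻¹ • volume.restrict K

/-- the reflection in the hyperplane orthogonal to the unit vector `e` -/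
noncomputable def refl {n : ℕ} (e x : Euc n) : Euc n := x - (2 * ⟪e, x⟫_ℝ) • e

/-- convex bodies `K` which are invariant under the reflections in the hyperplanes orthogonal to the
vectors `e_1, …, e_q` of an orthonormal family -/
structure ReflectionBody {n q : ℕ} (K : Set (Euc n)) (e : Fin q → Euc n) : Prop where
  comp : IsCompact K
  conv : Convex ℝ K
  int : (interior K).Nonempty
  orth : Orthonormal ℝ e
  inv : ∀ j, ∀ x ∈ K, refl (e j) x ∈ K

/-- the boundary measure `μ⁺(S)`, the lower limit of `(μ(S_ε) - μ(S)) / ε` for the open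
neighbourhoods `S_ε` of `S` -/
noncomputable def bdry {n : ℕ} (μ : Measure (Euc n)) (S : Set (Euc n)) : ℝ≥0∞ :=
  Filter.liminf (fun ε : ℝ => (μ (Metric.thickening ε S) - μ S) / ENNReal.ofReal ε)
    (nhdsWithin 0 (Set.Ioi 0))

/-- the halfspace `⟪u, x⟫ ≤ b` -/
def halfspace {n : ℕ} (u : Euc n) (b : ℝ) : Set (Euc n) := {x | ⟪u, x⟫_ℝ ≤ b}

/-- concentration of invariant sets: for each Borel set `S` with `μ(S) ≥ 1/2`, `μ` uniform on `K`, which is
invariant under the reflections of all `e_j`, the open `r`-neighbourhood of `S` has measure at least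
`1 - p` -/
def InvariantSetsConcentrate {n q : ℕ} (K : Set (Euc n)) (e : Fin q → Euc n) (p r : ℝ) : Prop :=
  ∀ S : Set (Euc n), MeasurableSet S → (∀ j, ∀ x ∈ S, refl (e j) x ∈ S) → 1 / 2 ≤ unif K S →
    ENNReal.ofReal (1 - p) ≤ unif K (Metric.thickening r S)

theorem vol_pos {n : ℕ} {K : Set (Euc n)} (h : (interior K).Nonempty) : 0 < volume K :=
  lt_of_lt_of_le (isOpen_interior.measure_pos volume h) (measure_mono interior_subset)

theorem conc_of {n q : ℕ} {K : Set (Euc n)} {e : Fin q → Euc n} (hK : ReflectionBody K e)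
    {p r : ℝ} (H : InvariantSetsConcentrate K e p r) (S : Set (Euc n)) (hS : MeasurableSet S)
    (hinv : ∀ j, ∀ x ∈ S, x - (2 * ⟪e j, x⟫_ℝ) • e j ∈ S) (h2 : 1 / 2 ≤ (unif K).real S) :
    1 - p ≤ (unif K).real (Metric.thickening r S) := by
  have hprob : IsProbabilityMeasure (unif K) :=
    Pool.Agent.R754.KG.un_prob (vol_pos hK.int).ne' hK.comp.measure_lt_top.ne
  have h3 := H S hS hinv (by
    rw [← ofReal_measureReal (μ := unif K) (s := S)]
    have e : (1 / 2 : ℝ≥0∞) = ENNReal.ofReal (1 / 2) := by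
      rw [ENNReal.ofReal_div_of_pos (by norm_num)]
      norm_num
    rw [e]
    exact ENNReal.ofReal_le_ofReal h2)
  rw [← ofReal_measureReal (μ := unif K) (s := Metric.thickening r S),
    ENNReal.ofReal_le_ofReal_iff measureReal_nonneg] at h3
  exact h3

/-- **The KLS inequality for bodies with reflections from the concentration of invariant sets.** -/
theorem result : ∃ p c : ℝ, 0 < p ∧ 0 < c ∧ ∀ (n q : ℕ) (K : Set (Euc n)) (e : Fin q → Euc n),
    ReflectionBody K e → ∀ r : ℝ, 0 < r → InvariantSetsConcentrate K e p r →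
    (∀ t : ℝ, 0 < t →
      (∀ (j : Fin q) (b : ℝ), ENNReal.ofReal t *
        min (unif K (halfspace (e j) b)) (1 - unif K (halfspace (e j) b)) ≤
          bdry (unif K) (halfspace (e j) b)) →
      ∀ A : Set (Euc n), MeasurableSet A → unif K A = 1 / 2 →
        ENNReal.ofReal (c * min t (1 / r)) * min (unif K A) (1 - unif K A) ≤
          bdry (unif K) A) ∧
    (∀ s : ℝ, 0 ≤ s → (∀ j : Fin q, ∫ x, ⟪e j, x⟫_ℝ ^ 2 ∂(unif K) ≤ s) →
      ∀ A : Set (Euc n), MeasurableSet A → unif K A = 1 / 2 →
        ENNReal.ofReal (c / (r + Real.sqrt s)) * min (unif K A) (1 - unif K A) ≤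
          bdry (unif K) A) := by
  obtain ⟨Q, hQd⟩ : ∃ Q : ℝ, Q = Real.sqrt (50 * 24000000) := ⟨_, rfl⟩
  have hQ : 0 < Q := by rw [hQd]; exact Real.sqrt_pos.2 (by norm_num)
  obtain ⟨Ch, hCh, HH⟩ := Run7.h444.RC.half
  obtain ⟨c, hc⟩ : ∃ c, c = 1 / (4 * Q * (1 + Real.sqrt Ch)) := ⟨_, rfl⟩
  have hsC : 0 ≤ Real.sqrt Ch := Real.sqrt_nonneg _
  have hc0 : 0 < c := by rw [hc]; positivity
  have hc1 : c ≤ 1 / (4 * Q) := by
    rw [hc]
    refine div_le_div_of_nonneg_left zero_le_one (by positivity) ?_
    nlinarith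
  have hc2 : c * (1 + Real.sqrt Ch) = 1 / (4 * Q) := by
    rw [hc]
    field_simp
  -- the second part, with the constant `1 / (4 Q)`
  have key : ∀ (n q : ℕ) (K : Set (Euc n)) (e : Fin q → Euc n), ReflectionBody K e →
      ∀ r : ℝ, 0 < r → InvariantSetsConcentrate K e (1 / 16000000) r → ∀ s : ℝ, 0 ≤ s →
      (∀ j : Fin q, ∫ x, ⟪e j, x⟫_ℝ ^ 2 ∂(unif K) ≤ s) →
      ∀ A : Set (Euc n), unif K A = 1 / 2 →
        ENNReal.ofReal (1 / (4 * Q) / (r + Real.sqrt s)) ≤ bdry (unif K) A := by
    intro n q K e hK r hr hS s hs hcov A hA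
    have h1 := Run7.h444.RC.main K hK.comp hK.conv (vol_pos hK.int) e hK.orth hK.inv (unif K) rfl
      r s hr hs hcov (fun S hS' hinv h2 => conc_of hK hS S hS' hinv h2) A hA
    rw [← hQd] at h1
    have hss : 0 ≤ Real.sqrt s := Real.sqrt_nonneg _
    have h2 : Real.sqrt (r ^ 2 + s) ≤ r + Real.sqrt s := by
      refine Real.sqrt_le_iff.2 ⟨by positivity, ?_⟩
      have := Real.sq_sqrt hs
      nlinarith
    have hX : 0 < Q * (r + Real.sqrt s) := by positivity
    have h3 : (1 / 4 : ℝ≥0∞) ≤ ENNReal.ofReal (Q * (r + Real.sqrt s)) * bdry (unif K) A :=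
      h1.trans (mul_le_mul_left (ENNReal.ofReal_le_ofReal (mul_le_mul_of_nonneg_left h2 hQ.le)) _)
    have e1 : ENNReal.ofReal (1 / (4 * Q) / (r + Real.sqrt s)) =
        (ENNReal.ofReal (Q * (r + Real.sqrt s)))⁻¹ * (1 / 4) := by
      have e2 : (1 / 4 : ℝ≥0∞) = ENNReal.ofReal (1 / 4) := by
        rw [ENNReal.ofReal_div_of_pos (by norm_num)]
        norm_num
      rw [e2, ← ENNReal.ofReal_inv_of_pos hX, ← ENNReal.ofReal_mul (by positivity)]
      congr 1
      field_simp
    rw [e1]
    calc (ENNReal.ofReal (Q * (r + Real.sqrt s)))⁻¹ * (1 / 4)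
        ≤ (ENNReal.ofReal (Q * (r + Real.sqrt s)))⁻¹ *
            (ENNReal.ofReal (Q * (r + Real.sqrt s)) * bdry (unif K) A) := mul_le_mul_right h3 _
      _ = bdry (unif K) A := by
          rw [← mul_assoc, ENNReal.inv_mul_cancel (by simpa using hX) ENNReal.ofReal_ne_top,
            one_mul]
  have hone : ∀ (n q : ℕ) (K : Set (Euc n)) (e : Fin q → Euc n), ReflectionBody K e →
      ∀ A : Set (Euc n), min (unif K A) (1 - unif K A) ≤ 1 := by
    intro n q K e hK A
    have hprob : IsProbabilityMeasure (unif K) :=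
      Pool.Agent.R754.KG.un_prob (vol_pos hK.int).ne' hK.comp.measure_lt_top.ne
    exact (min_le_left _ _).trans prob_le_one
  refine ⟨1 / 16000000, c, by norm_num, hc0, fun n q K e hK r hr hS => ⟨fun t ht hH A _ hA => ?_,
    fun s hs hcov A _ hA => ?_⟩⟩
  · -- the variances
    obtain ⟨s, hsd⟩ : ∃ s, s = Ch / t ^ 2 := ⟨_, rfl⟩
    have hs : 0 ≤ s := by rw [hsd]; positivity
    have hcov : ∀ j : Fin q, ∫ x, ⟪e j, x⟫_ℝ ^ 2 ∂(unif K) ≤ s := by
      intro j
      rw [hsd]
      exact HH n K hK.comp hK.conv hK.int (e j) (hK.orth.1 j) (hK.inv j) (unif K) rfl t ht (hH j)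
    have h1 := key n q K e hK r hr hS s hs hcov A hA
    have hm : 0 < min t (1 / r) := lt_min ht (by positivity)
    have h2 : c * min t (1 / r) ≤ 1 / (4 * Q) / (r + Real.sqrt s) := by
      have hr1 : min t (1 / r) * r ≤ 1 := by
        have : min t (1 / r) ≤ 1 / r := min_le_right _ _
        rwa [le_div_iff₀ hr] at this
      have hss : Real.sqrt s = Real.sqrt Ch / t := by
        rw [hsd, Real.sqrt_div hCh.le, Real.sqrt_sq ht.le]
      have ht1 : min t (1 / r) * Real.sqrt s ≤ Real.sqrt Ch := by
        rw [hss, ← mul_div_assoc, div_le_iff₀ ht, mul_comm]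
        exact mul_le_mul_of_nonneg_left (min_le_left _ _) hsC
      rw [← hc2, le_div_iff₀ (by positivity)]
      have h3 : min t (1 / r) * (r + Real.sqrt s) ≤ 1 + Real.sqrt Ch := by linarith
      calc c * min t (1 / r) * (r + Real.sqrt s) = c * (min t (1 / r) * (r + Real.sqrt s)) := by
            ring
        _ ≤ c * (1 + Real.sqrt Ch) := mul_le_mul_of_nonneg_left h3 hc0.le
    calc ENNReal.ofReal (c * min t (1 / r)) * min (unif K A) (1 - unif K A)
        ≤ ENNReal.ofReal (c * min t (1 / r)) * 1 := mul_le_mul_right (hone n q K e hK A) _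
      _ = ENNReal.ofReal (c * min t (1 / r)) := mul_one _
      _ ≤ _ := (ENNReal.ofReal_le_ofReal h2).trans h1
  · have h1 := key n q K e hK r hr hS s hs hcov A hA
    have h2 : c / (r + Real.sqrt s) ≤ 1 / (4 * Q) / (r + Real.sqrt s) := by
      have := Real.sqrt_nonneg s
      exact div_le_div_of_nonneg_right hc1 (by positivity)
    calc ENNReal.ofReal (c / (r + Real.sqrt s)) * min (unif K A) (1 - unif K A)
        ≤ ENNReal.ofReal (c / (r + Real.sqrt s)) * 1 := mul_le_mul_right (hone n q K e hK A) _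
      _ = ENNReal.ofReal (c / (r + Real.sqrt s)) := mul_one _
      _ ≤ _ := (ENNReal.ofReal_le_ofReal h2).trans h1

end Pool.Agent.Results.MP_6d896a_gt.ReflectionConcentration
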