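import Pool.Agent.Run7.h444.ER5

/-!
# The KLS constant of a symmetric convex body is determined by its symmetric subsets

For all `n` and all convex bodies `K = -K ⊂ ℝⁿ` with uniform probability measure `μ` and covariance
matrix `A`,

  `ψ_μ ≥ (1 / 62) min (ψ_μ^sym, ‖A‖^{-1/2})`,

where `ψ_μ` is the isoperimetric (Cheeger) constant of `μ`, an infimum over all Borel sets, and
`ψ_μ^sym ≥ ψ_μ` is the same infimum over the symmetric Borel sets `S = -S` only.

So the conjecture of Kannan, Lovasz and Simonovits for all symmetric convex bodies and all sets `S` is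
equivalent to its restriction to symmetric sets `S = -S`: halfspaces, and all other sets which are not
symmetric, can be left out.

Proof. (1) By the coarea inequality and the inequality of Cheeger for the level sets of even functions,
`Var f ≤ L E ‖∇ f‖²` for even `f`, with `L = 4 / t²`, `t = ψ_μ^sym`. (2) The same follows for odd functions
with the constant `4 L + 8 ‖A‖`: let `P f(y) = E (f(X) | X + √h Z = y)`, `Z` Gaussian and `X` of law `μ`, and
`v = P* P f`. A discrete form of the inequality of Bochner says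
`E ‖∇ v‖² + h E ‖D² v‖² ≤ E ‖∇ f‖²`. The derivatives of the odd function `v` are even, so (1) bounds
`E ‖∇ v‖² - ‖E ∇ v‖²` by `L E ‖D² v‖²`, and `‖E ∇ v‖² ≤ ‖A‖ E ‖∇ f‖² / h`. For `h = L + 2 ‖A‖` this gives
`E ‖∇ v‖² ≤ E ‖∇ f‖² / 2`, which can be iterated. (3) So `Var f ≤ (4 L + 8 ‖A‖) E ‖∇ f‖²` for all `f`; the
isoperimetric inequality for all sets follows from it (Buser, Ledoux; starting files).
-/

set_option autoImplicit false

namespace Pool.Agent.Results.MP_6d896a_gt.SymmetricSets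

open MeasureTheory Set
open scoped ENNReal InnerProductSpace

/-- Euclidean space of dimension `n` -/
abbrev Euc (n : ℕ) : Type := EuclideanSpace ℝ (Fin n)

/-- the uniform probability measure on `K` -/
noncomputable def unif {n : ℕ} (K : Set (Euc n)) : Measure (Euc n) :=
  (volume K)⁻¹ • volume.restrict K

/-- convex bodies `K = -K` -/
structure SymmetricBody {n : ℕ} (K : Set (Euc n)) : Prop where
  comp : IsCompact K
  conv : Convex ℝ K
  int : (interior K).Nonempty
  symm : ∀ x ∈ K, -x ∈ K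

/-- the boundary measure `μ⁺(S)`, the lower limit of `(μ(S_ε) - μ(S)) / ε` for the open
neighbourhoods `S_ε` of `S` -/
noncomputable def bdry {n : ℕ} (μ : Measure (Euc n)) (S : Set (Euc n)) : ℝ≥0∞ :=
  Filter.liminf (fun ε : ℝ => (μ (Metric.thickening ε S) - μ S) / ENNReal.ofReal ε)
    (nhdsWithin 0 (Set.Ioi 0))

/-- the isoperimetric (Cheeger) constant: the infimum of `μ⁺(S) / min(μ S, 1 - μ S)` over the Borel
sets `S` with `0 < μ S < 1` -/
noncomputable def psi {n : ℕ} (μ : Measure (Euc n)) : ℝ≥0∞ :=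
  ⨅ (S : Set (Euc n)) (_ : MeasurableSet S) (_ : 0 < μ S) (_ : μ S < 1),
    bdry μ S / min (μ S) (1 - μ S)

/-- the same infimum over the symmetric Borel sets `S = -S` with `0 < μ S < 1` -/
noncomputable def psiSym {n : ℕ} (μ : Measure (Euc n)) : ℝ≥0∞ :=
  ⨅ (S : Set (Euc n)) (_ : MeasurableSet S) (_ : ∀ x, x ∈ S ↔ -x ∈ S) (_ : 0 < μ S) (_ : μ S < 1),
    bdry μ S / min (μ S) (1 - μ S)

theorem bdry_eq {n : ℕ} (μ : Measure (Euc n)) (S : Set (Euc n)) :
    bdry μ S = Run7.h444.ER.bd μ S := rfl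

theorem cov_of {n : ℕ} {K : Set (Euc n)} (hK : SymmetricBody K) (s : ℝ) (hs : 0 ≤ s)
    (hvar : ∀ θ : Euc n, ‖θ‖ = 1 → ProbabilityTheory.variance (fun x => ⟪x, θ⟫_ℝ) (unif K) ≤ s)
    (w : Euc n) : Pool.Agent.W695.KH.EV K (fun x => ⟪x, w⟫_ℝ ^ 2) ≤ s * ‖w‖ ^ 2 := by
  have hvol : 0 < volume K := lt_of_lt_of_le (isOpen_interior.measure_pos volume hK.int)
    (measure_mono interior_subset)
  have hfin : volume K ≠ ⊤ := hK.comp.measure_lt_top.ne
  have hint : ∀ g : Euc n → ℝ, ∫ x, g x ∂(unif K) = (∫ x in K, g x) / (volume K).toReal := by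
    intro g
    unfold unif
    rw [integral_smul_measure, ENNReal.toReal_inv, smul_eq_mul, inv_mul_eq_div]
  have hprob : IsProbabilityMeasure (unif K) := by
    refine ⟨?_⟩
    unfold unif
    rw [Measure.smul_apply, Measure.restrict_apply_univ, smul_eq_mul,
      ENNReal.inv_mul_cancel hvol.ne' hfin]
  have hμc : (unif K) Kᶜ = 0 := by
    unfold unif
    rw [Measure.smul_apply, Measure.restrict_apply hK.comp.measurableSet.compl, compl_inter_self,
      measure_empty, smul_zero]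
  have hone : ∀ θ : Euc n, ‖θ‖ = 1 →
      Pool.Agent.W695.KH.EV K (fun x => ⟪x, θ⟫_ℝ ^ 2) ≤ s := by
    intro θ hθ
    have h1 := hvar θ hθ
    have hc : Continuous fun x : Euc n => ⟪x, θ⟫_ℝ := by fun_prop
    have hL2 : MemLp (fun x : Euc n => ⟪x, θ⟫_ℝ) 2 (unif K) := by
      rw [memLp_two_iff_integrable_sq hc.aestronglyMeasurable]
      exact Run7.h444.ER.int_of_cont hK.comp hμc (hc.pow 2)
    rw [ProbabilityTheory.variance_eq_sub hL2] at h1
    have h2 : ∫ x, ⟪x, θ⟫_ℝ ∂(unif K) = 0 := by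
      rw [hint]
      have h3 : ∫ x in K, ⟪x, θ⟫_ℝ = 0 := by
        rw [← integral_indicator hK.comp.measurableSet]
        have h4 := integral_neg_eq_self (μ := (volume : Measure (Euc n)))
          (K.indicator fun x => ⟪x, θ⟫_ℝ)
        have h5 : ∀ x, K.indicator (fun x => ⟪x, θ⟫_ℝ) (-x) = -K.indicator (fun x => ⟪x, θ⟫_ℝ) x := by
          intro x
          by_cases hx : x ∈ K
          · rw [indicator_of_mem hx, indicator_of_mem (hK.symm x hx), inner_neg_left]
          · rw [indicator_of_notMem hx, indicator_of_notMem fun h => hx (by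
              simpa using hK.symm _ h), neg_zero]
        simp only [h5] at h4
        rw [integral_neg] at h4
        linarith
      rw [h3, zero_div]
    have h6 : ∫ x, ((fun x : Euc n => ⟪x, θ⟫_ℝ) ^ 2) x ∂(unif K) =
        Pool.Agent.W695.KH.EV K (fun x => ⟪x, θ⟫_ℝ ^ 2) := by
      rw [hint]
      rfl
    rw [h2, h6] at h1
    linarith
  by_cases hw : w = 0
  · subst hw
    have : Pool.Agent.W695.KH.EV K (fun x => ⟪x, (0 : Euc n)⟫_ℝ ^ 2) = 0 := by
      unfold Pool.Agent.W695.KH.EV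
      simp
    rw [this]
    positivity
  have hn : 0 < ‖w‖ := norm_pos_iff.2 hw
  have h1 := hone (‖w‖⁻¹ • w) (by rw [norm_smul, norm_inv, norm_norm, inv_mul_cancel₀ hn.ne'])
  have h2 : Pool.Agent.W695.KH.EV K (fun x => ⟪x, ‖w‖⁻¹ • w⟫_ℝ ^ 2) =
      (‖w‖⁻¹) ^ 2 * Pool.Agent.W695.KH.EV K (fun x => ⟪x, w⟫_ℝ ^ 2) := by
    unfold Pool.Agent.W695.KH.EV
    rw [← mul_div_assoc, ← integral_const_mul]
    congr 1
    refine integral_congr_ae (Filter.Eventually.of_forall fun x => ?_)
    simp only [inner_smul_right]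
    ring
  rw [h2] at h1
  have h3 := mul_le_mul_of_nonneg_right h1 (sq_nonneg ‖w‖)
  have h4 : (‖w‖⁻¹) ^ 2 * Pool.Agent.W695.KH.EV K (fun x => ⟪x, w⟫_ℝ ^ 2) * ‖w‖ ^ 2 =
      Pool.Agent.W695.KH.EV K (fun x => ⟪x, w⟫_ℝ ^ 2) := by
    field_simp
  rwa [h4] at h3

/-- **Symmetric sets suffice.** For all `n`, all convex bodies `K = -K` in `ℝⁿ` and every bound `s` of
the variances of the marginals of the uniform measure `μ` on `K` in directions of length one,
`min (ψ_μ^sym, 1 / √s) ≤ 62 ψ_μ`. -/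
theorem result : ∀ (n : ℕ) (K : Set (Euc n)), SymmetricBody K → ∀ s : ℝ, 0 < s →
    (∀ θ : Euc n, ‖θ‖ = 1 → ProbabilityTheory.variance (fun x => ⟪x, θ⟫_ℝ) (unif K) ≤ s) →
    min (psiSym (unif K)) (ENNReal.ofReal (1 / Real.sqrt s)) ≤ 62 * psi (unif K) := by
  intro n K hK s hs hvar
  have hvol : 0 < volume K := lt_of_lt_of_le (isOpen_interior.measure_pos volume hK.int)
    (measure_mono interior_subset)
  have hfin : volume K ≠ ⊤ := hK.comp.measure_lt_top.ne
  have hprob : IsProbabilityMeasure (unif K) := by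
    refine ⟨?_⟩
    unfold unif
    rw [Measure.smul_apply, Measure.restrict_apply_univ, smul_eq_mul,
      ENNReal.inv_mul_cancel hvol.ne' hfin]
  obtain ⟨μ, hμ⟩ : ∃ μ, μ = unif K := ⟨_, rfl⟩
  rw [← hμ] at hprob ⊢
  have hs0 : 0 < Real.sqrt s := Real.sqrt_pos.2 hs
  -- a real number below the minimum
  refine le_of_forall_lt fun b hb => ?_
  obtain ⟨b', hb1, hb2⟩ := exists_between hb
  have hb2t : b' ≠ ⊤ := hb2.ne_top
  obtain ⟨t, ht⟩ : ∃ t, t = b'.toReal := ⟨_, rfl⟩
  have hbt : b' = ENNReal.ofReal t := by rw [ht, ENNReal.ofReal_toReal hb2t]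
  have ht0 : 0 < t := by
    rw [ht]
    exact ENNReal.toReal_pos (ne_bot_of_gt hb1) hb2t
  obtain ⟨hb3, hb4⟩ := lt_min_iff.1 hb2
  refine lt_of_lt_of_le hb1 ?_
  have hts : t ≤ 1 / Real.sqrt s := by
    rw [hbt] at hb4
    exact ((ENNReal.ofReal_lt_ofReal_iff (by positivity)).1 hb4).le
  have hmin : ∀ S : Set (Euc n), MeasurableSet S → min (μ S) (1 - μ S) = min (μ S) (μ Sᶜ) :=
    fun S hS => by rw [prob_compl_eq_one_sub hS]
  have H : ∀ S : Set (Euc n), MeasurableSet S → (∀ x, x ∈ S → -x ∈ S) →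
      ENNReal.ofReal t * min (μ S) (μ Sᶜ) ≤ Run7.h444.ER.bd μ S := by
    intro S hS hsym
    by_cases h0 : μ S = 0
    · rw [h0, min_eq_left (by simp), mul_zero]
      exact bot_le
    by_cases h1 : μ S = 1
    · have : μ Sᶜ = 0 := by rw [prob_compl_eq_one_sub hS, h1, tsub_self]
      rw [this, min_eq_right (by simp), mul_zero]
      exact bot_le
    have hlt : μ S < 1 := lt_of_le_of_ne prob_le_one h1
    have h2 : psiSym μ ≤ bdry μ S / min (μ S) (1 - μ S) := by
      unfold psiSym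
      refine iInf_le_of_le S (iInf_le_of_le hS (iInf_le_of_le (fun x => ⟨hsym x, fun h => ?_⟩)
        (iInf_le_of_le (pos_iff_ne_zero.2 h0) (iInf_le_of_le hlt le_rfl))))
      have := hsym _ h
      rwa [neg_neg] at this
    rw [hmin S hS] at h2
    have h3 : ENNReal.ofReal t ≤ bdry μ S / min (μ S) (μ Sᶜ) := by
      rw [← hbt]
      exact hb3.le.trans h2
    have h4 := mul_le_mul_left h3 (min (μ S) (μ Sᶜ))
    refine h4.trans ?_
    have hSc : μ Sᶜ ≠ 0 := by
      rw [prob_compl_eq_one_sub hS]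
      exact (tsub_pos_of_lt hlt).ne'
    rw [← bdry_eq, ENNReal.div_mul_cancel (lt_min (pos_iff_ne_zero.2 h0)
      (pos_iff_ne_zero.2 hSc)).ne' (ne_top_of_le_ne_top (measure_ne_top μ S) (min_le_left _ _))]
  have key : ∀ S : Set (Euc n), MeasurableSet S →
      ENNReal.ofReal (t / 62) * min (μ S) (μ Sᶜ) ≤ bdry μ S := by
    intro S hS
    have h1 := Run7.h444.ER.sets_min K hK.comp hK.conv hvol hK.symm μ hμ t s ht0 hs
      (cov_of hK s hs.le hvar) H S hS
    rw [min_eq_left hts] at h1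
    exact h1
  have h5 : ENNReal.ofReal (t / 62) ≤ psi μ := by
    unfold psi
    refine le_iInf fun S => le_iInf fun hS => le_iInf fun h0 => le_iInf fun h1 => ?_
    rw [hmin S hS]
    have hSc : μ Sᶜ ≠ 0 := by
      rw [prob_compl_eq_one_sub hS]
      exact (tsub_pos_of_lt h1).ne'
    rw [ENNReal.le_div_iff_mul_le (Or.inl (lt_min h0 (pos_iff_ne_zero.2 hSc)).ne')
      (Or.inl (ne_top_of_le_ne_top (measure_ne_top μ S) (min_le_left _ _)))]
    exact key S hS
  have h6 := mul_le_mul_right h5 62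
  refine le_trans ?_ h6
  have e62 : (62 : ℝ≥0∞) = ENNReal.ofReal 62 := by norm_num
  rw [hbt, e62, ← ENNReal.ofReal_mul (by norm_num)]
  refine ENNReal.ofReal_le_ofReal ?_
  linarith

end Pool.Agent.Results.MP_6d896a_gt.SymmetricSets
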